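import Mathlib

set_option autoImplicit false

namespace Pool.Agent.Results.MP_8c8deb_an.Counter

open Matrix

/-- the products `A_n B_n ... A_1 B_1` -/
def P {d : ℕ} (A B : ℕ → Matrix (Fin d) (Fin d) ℝ) : ℕ → Matrix (Fin d) (Fin d) ℝ
  | 0 => 1
  | n + 1 => A n * B n * P A B n

noncomputable section

abbrev M := Matrix (Fin 5) (Fin 5) ℝ

def D (t s : ℝ) : M := diagonal ![1, 1, t, 1, s]

def A2 : M := !![0, 0, 0, 0, 0; 2, 0, 0, 2, 0; 2, 0, 0, 2, 0; 0, 2, 0, 0, 0; 0, 0, 2, 0, 0]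

def R : M := !![1, 1, 0, 2, -2; 0, 0, 0, 0, 0; 0, 0, 0, 0, 0; 0, 0, 0, 0, 0; 0, 0, 0, 0, 0]

lemma Dv (t s a b c d e : ℝ) : D t s *ᵥ ![a, b, c, d, e] = ![a, b, t * c, d, s * e] := by
  ext i; fin_cases i <;> simp [D, mulVec_diagonal]

lemma Av (a b c d e : ℝ) : A2 *ᵥ ![a, b, c, d, e] = ![0, 2 * (a + d), 2 * (a + d), 2 * b, 2 * c] := by
  ext i; fin_cases i <;> simp [A2] <;> ring

lemma Rv (a b c d e : ℝ) : R *ᵥ ![a, b, c, d, e] = ![a + b + 2 * (d - e), 0, 0, 0, 0] := by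
  ext i; fin_cases i <;> simp [R]; ring

lemma eta (v : Fin 5 → ℝ) : v = ![v 0, v 1, v 2, v 3, v 4] := by
  ext i; fin_cases i <;> rfl

lemma ex {X Y : M} (h : ∀ a b c d e, X *ᵥ ![a, b, c, d, e] = Y *ᵥ ![a, b, c, d, e]) : X = Y :=
  toLin'.injective (LinearMap.ext fun v => by rw [toLin'_apply, toLin'_apply, eta v, h])

lemma bdd {f : ℕ → M} {N : ℕ} (h : ∀ n ≥ N, f (n + 1) = f n) : ∃ C, ∀ n i j, |f n i j| ≤ C := by
  have h1 : ∀ n, f (N + n) = f N := fun n => by
    induction n with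
    | zero => rfl
    | succ n ih => rw [← add_assoc, h _ (Nat.le_add_right N n), ih]
  obtain ⟨C, hC⟩ := Finite.bddAbove_range fun x : Fin (N + 1) × Fin 5 × Fin 5 => |f x.1 x.2.1 x.2.2|
  refine ⟨C, fun n i j => ?_⟩
  rcases le_total n N with h | h
  · exact hC ⟨(⟨n, Nat.lt_succ_of_le h⟩, i, j), rfl⟩
  · obtain ⟨n, rfl⟩ := Nat.exists_eq_add_of_le h
    rw [h1]
    exact hC ⟨(Fin.last N, i, j), rfl⟩

lemma run {A B : ℕ → M} {p m : ℕ} (h : ∀ i < m, A (p + i) = D 2⁻¹ 2 ∧ B (p + i) = 1) :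
    P A B (p + m) = D (2⁻¹ ^ m) (2 ^ m) * P A B p := by
  induction m with
  | zero => rw [show D (2⁻¹ ^ 0) (2 ^ 0) = 1 from ex (by simp [Dv]), one_mul, add_zero]
  | succ m ih =>
    rw [← add_assoc, P, (h m m.lt_succ_self).1, (h m m.lt_succ_self).2,
      ih fun i hi => h i (hi.trans m.lt_succ_self), mul_one, ← mul_assoc]
    congr 1
    exact ex fun a b c d e => by rw [← mulVec_mulVec, Dv, Dv, Dv]; ring_nf

def st (k : ℤ) : ℕ → ℤ × ℤ
  | 0 => (k, 0)
  | n + 1 => if (st k n).2 < (st k n).1 then ((st k n).1, (st k n).2 + 1) else ((st k n).1 - 1, 0)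

def Inv (k : ℤ) (s : ℤ × ℤ) (v : Fin 5 → ℝ) : Prop :=
  ∃ a : ℝ, 2 ^ (k - s.1) ≤ |a| ∧ (v = ![a, 0, 0, 0, 0] ∨ v = ![0, a, 2 ^ (-s.2) * a, 0, 0] ∨
    v = ![0, 0, 0, a, 2 ^ (s.2 - s.1 - 1) * a])

end

theorem result : ∃ (d : ℕ) (S T : Finset (Matrix (Fin d) (Fin d) ℝ)), S.Nonempty ∧ T.Nonempty ∧
    (∀ A, (∀ n, A n ∈ S) → ∃ B, (∀ n, B n ∈ T) ∧ ∃ C, ∀ n i j, |P A B n i j| ≤ C) ∧
    ∀ C : ℝ, ∃ A, (∀ n, A n ∈ S) ∧ ∀ B, (∀ n, B n ∈ T) → ∃ n ≥ 1, ∃ i j, C < |P A B n i j| := by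
  classical
  refine ⟨5, {D 2⁻¹ 2, A2}, {1, R}, by simp, by simp, fun A hA => ?_, fun C => ?_⟩
  · simp only [Finset.mem_insert, Finset.mem_singleton] at hA ⊢
    by_cases h : ∃ m p, A p = A2 ∧ A (p + 1 + m) = A2
    · obtain ⟨p, h1, h2⟩ := Nat.find_spec h
      have h3 := fun m (hm : m < Nat.find h) => not_exists.1 (Nat.find_min h hm)
      generalize Nat.find h = m at h2 h3
      let B : ℕ → M := fun n => if n = p ∨ n = p + 1 + m + 1 + m then R else 1
      have z : P A B (p + 1 + m + 1 + m + 1) = 0 := by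
        rw [P, run fun i hi => ⟨(hA _).resolve_right fun e => h3 i hi _ ⟨h2, e⟩, if_neg (by omega)⟩,
          P, run fun i hi => ⟨(hA _).resolve_right fun e => h3 i hi _ ⟨h1, e⟩, if_neg (by omega)⟩,
          P, h1, h2]
        simp only [B, true_or, or_true, if_true]
        rw [if_neg (by omega), mul_one]
        have : R * D (2⁻¹ ^ m) (2 ^ m) * A2 * D (2⁻¹ ^ m) (2 ^ m) * A2 * R = 0 :=
          ex fun a b c d e => by
            simp only [← mulVec_mulVec, Rv, Av, Dv, zero_mulVec]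
            ext i; fin_cases i <;> simp
            field_simp; ring
        simp only [mul_assoc] at this ⊢
        rw [← mul_assoc A2 R, ← mul_assoc _ (A2 * R), ← mul_assoc A2, ← mul_assoc (D _ _) (A2 * _),
          ← mul_assoc R, this, zero_mul, mul_zero]
      refine ⟨B, fun n => by dsimp only [B]; split_ifs <;> simp,
        bdd (N := p + 1 + m + 1 + m + 1) fun n hn => ?_⟩
      have : P A B n = 0 := by
        induction n, hn using Nat.le_induction with
        | base => exact z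
        | succ n _ ih => rw [P, ih, mul_zero]
      rw [P, this, mul_zero]
    · obtain ⟨N, hN⟩ : ∃ N, ∀ n ≥ N, A n = D 2⁻¹ 2 := by
        by_cases h' : ∃ p, A p = A2
        · obtain ⟨p, hp⟩ := h'
          refine ⟨p + 1, fun n hn => (hA n).resolve_right fun e => ?_⟩
          obtain ⟨m, rfl⟩ := Nat.exists_eq_add_of_le hn
          exact h ⟨m, p, hp, e⟩
        · exact ⟨0, fun n _ => (hA n).resolve_right fun e => h' ⟨n, e⟩⟩
      refine ⟨fun _ => R, fun _ => Or.inr rfl, bdd (N := N + 1) fun n hn => ?_⟩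
      obtain ⟨n, rfl⟩ : ∃ m, n = m + 1 := ⟨n - 1, by omega⟩
      rw [P, P, hN n (by omega), hN _ (by omega), ← mul_assoc]
      congr 1
      exact ex fun a b c d e => by simp only [← mulVec_mulVec, Rv, Dv]; simp
  obtain ⟨k, hk⟩ := pow_unbounded_of_one_lt (max C 1) (one_lt_two (α := ℝ))
  refine ⟨fun n => if (st k n).2 < (st k n).1 then D 2⁻¹ 2 else A2,
    fun n => by dsimp only; split_ifs <;> simp, fun B hB => ?_⟩
  set A : ℕ → M := fun n => if (st k n).2 < (st k n).1 then D 2⁻¹ 2 else A2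
  have inv : ∀ n, 0 ≤ (st k n).1 → ((st k n).2 ≤ (st k n).1 ∧ Inv k (st k n) (P A B n *ᵥ ![1, 0, 0, 0, 0])) := by
    intro n
    induction n with
    | zero => exact fun h => ⟨h, 1, by simp [st], Or.inl (by simp [P])⟩
    | succ n ih =>
      intro h
      obtain ⟨i1, i2⟩ := ih (by rw [st] at h; split_ifs at h <;> omega)
      have i3 : Inv k (st k n) (B n *ᵥ (P A B n *ᵥ ![1, 0, 0, 0, 0])) := by
        rcases Finset.mem_insert.1 (hB n) with e | e
        · rwa [e, one_mulVec]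
        rw [Finset.mem_singleton.1 e]
        obtain ⟨a, a1, e | e | e⟩ := i2 <;> rw [e, Rv]
        · exact ⟨a, a1, Or.inl (by simp)⟩
        · exact ⟨a, a1, Or.inl (by simp)⟩
        · refine ⟨_, a1.trans ?_, Or.inl rfl⟩
          have : (2 : ℝ) ^ ((st k n).2 - (st k n).1 - 1) ≤ 2 ^ (-1 : ℤ) :=
            zpow_le_zpow_right₀ one_le_two (by omega)
          rw [show 0 + 0 + 2 * (a - 2 ^ ((st k n).2 - (st k n).1 - 1) * a) =
            (2 - 2 * 2 ^ ((st k n).2 - (st k n).1 - 1)) * a by ring, abs_mul]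
          exact le_mul_of_one_le_left (abs_nonneg a) (le_trans (by norm_num at this; linarith) (le_abs_self _))
      rw [P, ← mulVec_mulVec, ← mulVec_mulVec, st]
      dsimp only [A]
      rw [st] at h
      generalize st k n = s at i1 i3 h
      obtain ⟨m, i⟩ := s
      obtain ⟨a, a1, e⟩ := i3
      dsimp only at *
      split_ifs at h ⊢ with c
      · refine ⟨c, a, a1, ?_⟩
        rcases e with e | e | e <;> rw [e, Dv]
        · exact Or.inl (by simp)
        · exact Or.inr (Or.inl (by simp [zpow_add₀, mul_assoc]))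
        · exact Or.inr (Or.inr (by simp [zpow_add₀, zpow_sub₀]; ring))
      · obtain rfl : i = m := by omega
        refine ⟨h, 2 * a, ?_, ?_⟩
        · rw [show (k : ℤ) - (i - 1, (0 : ℤ)).1 = k - i + 1 by ring, zpow_add_one₀ two_ne_zero, abs_mul,
            abs_two]
          linarith
        rcases e with e | e | e <;> rw [e, Av]
        · exact Or.inr (Or.inl (by simp))
        · exact Or.inr (Or.inr (by simp; ring))
        · exact Or.inr (Or.inl (by simp))
  have : ∃ n, (st k n).1 = 0 := by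
    by_contra H
    push Not at H
    have : ∀ n : ℕ, 0 < (st k n).1 ∧ (st k n).1 ≤ k ∧ 0 ≤ (st k n).2 ∧
        (k + 2) * (st k n).1 - (st k n).2 + n ≤ (k + 2) * k := by
      intro n
      induction n with
      | zero => exact ⟨lt_of_le_of_ne (by simp [st]) (H 0).symm, by simp [st]⟩
      | succ n ih =>
        have h1 := H (n + 1)
        have h2 := (inv n ih.1.le).1
        rw [st] at h1 ⊢
        obtain ⟨j1, j2, j3, j4⟩ := ih
        split_ifs at h1 ⊢ <;> dsimp only at h1 ⊢ <;>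
          refine ⟨by omega, by omega, by omega, by push_cast; nlinarith⟩
    obtain ⟨h1, h2, -, h3⟩ := this ((k + 2) * k + k + 1)
    have := (inv _ h1.le).1
    push_cast at h3
    nlinarith
  obtain ⟨n, hn⟩ := this
  obtain ⟨-, a, a1, e⟩ := inv n hn.ge
  rw [hn, sub_zero, zpow_natCast] at a1
  have h0 : ∀ i, (P A B n *ᵥ ![1, 0, 0, 0, 0]) i = P A B n i 0 := fun i => by
    simp [mulVec, dotProduct, Fin.sum_univ_five]
  have h1 := (le_max_left C 1).trans_lt (hk.trans_le a1)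
  refine ⟨n, Nat.pos_of_ne_zero ?_, ?_⟩
  · rintro rfl
    obtain rfl : k = 0 := by simpa [st] using hn
    simp at hk
  · rcases e with e | e | e
    · exact ⟨0, 0, by rwa [← h0, e]⟩
    · exact ⟨1, 0, by rwa [← h0, e]⟩
    · exact ⟨3, 0, by rwa [← h0, e]⟩

end Pool.Agent.Results.MP_8c8deb_an.Counter
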